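import Mathlib
import Pool.Agent.H753R3.LM.Stmts

/-!
Task T7 of project H753-LM (MP_417230_al): the coarser group topology.
-/

set_option autoImplicit false

namespace Pool.Agent.H862R3.LMT7

open Topology Filter Set Pool.Agent.H753R3.LM

section
variable {G X : Type} [AddCommGroup G] [AddCommGroup X]

/-- the basic set `O + π b`. -/
def Z (π : X →+ G) (O : Set G) (b : Set X) : Set G := {g | ∃ o ∈ O, ∃ x ∈ b, g = o + π x}

theorem cont_of_zero {A C : Type} [AddCommGroup A] [TopologicalSpace A] [IsTopologicalAddGroup A]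
    [AddCommGroup C] [TopologicalSpace C] [IsTopologicalAddGroup C] (f : A →+ C)
    (h : ∀ S ∈ 𝓝 (0 : C), f ⁻¹' S ∈ 𝓝 (0 : A)) : Continuous f := by
  refine continuous_of_continuousAt_zero f ?_
  intro S hS
  rw [map_zero] at hS
  exact h S hS

end

/-- The statement with the neighbourhoods `O` of the ORIGINAL topology `τ` (in `TaskT7` as
written the instance found for `𝓝 (0 : G)` after `∃ σ` is `σ`). -/
theorem strong (G X : Type) [AddCommGroup G] [AddCommGroup X] [τ : TopologicalSpace G]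
    [IsTopologicalAddGroup G] (π : X →+ G) (B : Set (Set X)) (hBne : B.Nonempty)
    (hB0 : ∀ b ∈ B, (0 : X) ∈ b)
    (hBsub : ∀ b ∈ B, ∃ b' ∈ B, ∀ x ∈ b', ∀ y ∈ b', x - y ∈ b)
    (hBinter : ∀ b₁ ∈ B, ∀ b₂ ∈ B, ∃ b ∈ B, b ⊆ b₁ ∩ b₂)
    (hsep : ∀ g : G, g ≠ 0 → ∃ O ∈ 𝓝 (0 : G), ∃ b ∈ B, ∀ x ∈ b, g - π x ∉ O) :
    ∃ σ : TopologicalSpace G, @IsTopologicalAddGroup G σ _ ∧ @T2Space G σ ∧ τ ≤ σ ∧
      (∀ S : Set G, S ∈ @nhds G σ 0 ↔
        ∃ O ∈ @nhds G τ 0, ∃ b ∈ B, ∀ o ∈ O, ∀ x ∈ b, o + π x ∈ S) ∧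
      (∀ S : Set G, S ∈ @nhds G σ 0 ↔
        ∃ O ∈ @nhds G σ 0, ∃ b ∈ B, ∀ o ∈ O, ∀ x ∈ b, o + π x ∈ S) := by
  have hneg : ∀ b ∈ B, ∃ b' ∈ B, ∀ x ∈ b', -x ∈ b := by
    intro b hb
    obtain ⟨b', hb', h⟩ := hBsub b hb
    refine ⟨b', hb', fun x hx => ?_⟩
    have := h 0 (hB0 b' hb') x hx
    simpa using this
  have hadd : ∀ b ∈ B, ∃ b' ∈ B, ∀ x ∈ b', ∀ y ∈ b', x + y ∈ b := by
    intro b hb
    obtain ⟨b', hb', h⟩ := hBsub b hb
    obtain ⟨b₁, hb₁, h₁⟩ := hneg b' hb'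
    obtain ⟨b₂, hb₂, h₂⟩ := hBinter b' hb' b₁ hb₁
    refine ⟨b₂, hb₂, fun x hx y hy => ?_⟩
    have := h x (h₂ hx).1 (-y) (h₁ y (h₂ hy).2)
    simpa using this
  let F : AddGroupFilterBasis G :=
    { sets := {S | ∃ O ∈ 𝓝 (0 : G), ∃ b ∈ B, S = Z π O b}
      nonempty := by
        obtain ⟨b, hb⟩ := hBne
        exact ⟨_, univ, univ_mem, b, hb, rfl⟩
      inter_sets := by
        rintro _ _ ⟨O₁, hO₁, b₁, hb₁, rfl⟩ ⟨O₂, hO₂, b₂, hb₂, rfl⟩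
        obtain ⟨b, hb, h⟩ := hBinter b₁ hb₁ b₂ hb₂
        refine ⟨_, ⟨O₁ ∩ O₂, inter_mem hO₁ hO₂, b, hb, rfl⟩, ?_⟩
        rintro g ⟨o, ho, x, hx, rfl⟩
        exact ⟨⟨o, ho.1, x, (h hx).1, rfl⟩, ⟨o, ho.2, x, (h hx).2, rfl⟩⟩
      zero' := by
        rintro _ ⟨O, hO, b, hb, rfl⟩
        exact ⟨0, mem_of_mem_nhds hO, 0, hB0 b hb, by simp⟩
      add' := by
        rintro _ ⟨O, hO, b, hb, rfl⟩
        obtain ⟨b', hb', h⟩ := hadd b hb
        obtain ⟨O', hO', h'⟩ := exists_nhds_zero_half hO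
        refine ⟨_, ⟨O', hO', b', hb', rfl⟩, ?_⟩
        rintro _ ⟨_, ⟨o₁, ho₁, x₁, hx₁, rfl⟩, _, ⟨o₂, ho₂, x₂, hx₂, rfl⟩, rfl⟩
        exact ⟨o₁ + o₂, h' _ ho₁ _ ho₂, x₁ + x₂, h _ hx₁ _ hx₂, by simp [map_add]; abel⟩
      neg' := by
        rintro _ ⟨O, hO, b, hb, rfl⟩
        obtain ⟨b', hb', h⟩ := hneg b hb
        have hO' : {x : G | -x ∈ O} ∈ 𝓝 (0 : G) := by
          have hc : ContinuousAt (fun x : G => -x) 0 := continuous_neg.continuousAt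
          exact hc (by simpa using hO)
        refine ⟨_, ⟨{x : G | -x ∈ O}, hO', b', hb', rfl⟩, ?_⟩
        rintro _ ⟨o, ho, x, hx, rfl⟩
        exact ⟨-o, ho, -x, h x hx, by simp [map_neg]; abel⟩
      conj' := by
        rintro g _ ⟨O, hO, b, hb, rfl⟩
        refine ⟨_, ⟨O, hO, b, hb, rfl⟩, ?_⟩
        rintro _ ⟨o, ho, x, hx, rfl⟩
        exact ⟨o, ho, x, hx, by simp⟩ }
  have hbasis := F.nhds_zero_hasBasis
  have hgrp : @IsTopologicalAddGroup G F.topology _ := F.isTopologicalAddGroup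
  have hmem : ∀ S : Set G, S ∈ @nhds G F.topology 0 ↔
      ∃ O ∈ 𝓝 (0 : G), ∃ b ∈ B, ∀ o ∈ O, ∀ x ∈ b, o + π x ∈ S := by
    intro S
    rw [hbasis.mem_iff]
    constructor
    · rintro ⟨_, ⟨O, hO, b, hb, rfl⟩, h⟩
      exact ⟨O, hO, b, hb, fun o ho x hx => h ⟨o, ho, x, hx, rfl⟩⟩
    · rintro ⟨O, hO, b, hb, h⟩
      refine ⟨_, ⟨O, hO, b, hb, rfl⟩, ?_⟩
      rintro _ ⟨o, ho, x, hx, rfl⟩
      exact h o ho x hx
  refine ⟨F.topology, hgrp, ?_, ?_, hmem, ?_⟩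
  · refine @IsTopologicalAddGroup.t2Space_of_zero_sep G F.topology _ hgrp ?_
    intro g hg
    obtain ⟨O, hO, b, hb, h⟩ := hsep g hg
    refine ⟨Z π O b, (hmem _).2 ⟨O, hO, b, hb, fun o ho x hx => ⟨o, ho, x, hx, rfl⟩⟩, ?_⟩
    rintro ⟨o, ho, x, hx, he⟩
    refine h x hx ?_
    rw [he, add_sub_cancel_right]
    exact ho
  · rw [← continuous_id_iff_le]
    have hk : @Continuous G G τ F.topology (AddMonoidHom.id G) := by
      refine @cont_of_zero G G _ τ _ _ F.topology hgrp (AddMonoidHom.id G) ?_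
      intro S hS'
      rw [hmem] at hS'
      obtain ⟨O, hO, b, hb, h⟩ := hS'
      refine @Filter.mem_of_superset G (@nhds G τ 0) O _ hO fun o ho => ?_
      have := h o ho 0 (hB0 b hb)
      simpa using this
    exact hk
  · intro S
    constructor
    · intro hS
      rw [hmem] at hS
      obtain ⟨O, hO, b, hb, h⟩ := hS
      obtain ⟨b', hb', h'⟩ := hadd b hb
      obtain ⟨O', hO', h''⟩ := exists_nhds_zero_half hO
      refine ⟨Z π O' b', (hmem _).2 ⟨O', hO', b', hb', fun o ho x hx => ⟨o, ho, x, hx, rfl⟩⟩,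
        b', hb', ?_⟩
      rintro _ ⟨o, ho, x, hx, rfl⟩ y hy
      have h0 : (0 : G) ∈ O' := mem_of_mem_nhds hO'
      have := h (o + 0) (h'' o ho 0 h0) (x + y) (h' x hx y hy)
      rw [add_zero, map_add, ← add_assoc] at this
      exact this
    · rintro ⟨O, hO, b, hb, h⟩
      refine @Filter.mem_of_superset G (@nhds G F.topology 0) O S hO fun o ho => ?_
      have := h o ho 0 (hB0 b hb)
      simpa using this

theorem taskT7 : TaskT7 := by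
  intro G X _ _ τ _ π B hBne hB0 hBsub hBinter hsep
  obtain ⟨σ, h1, h2, h3, -, h5⟩ := strong G X π B hBne hB0 hBsub hBinter hsep
  exact ⟨σ, h1, h2, h3, h5⟩

end Pool.Agent.H862R3.LMT7

namespace Pool.Agent.H862R3

theorem taskT7 : Pool.Agent.H753R3.LM.TaskT7 := LMT7.taskT7

end Pool.Agent.H862R3

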