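import Pool.Agent.H301X.FR.Stmts

/-! Project H301-FR, task Smooth (helper862). -/

set_option autoImplicit false

open Real InnerProductSpace MeasureTheory Set
open scoped ContDiff RealInnerProductSpace

namespace Pool.Agent.H862R3.FRSmooth

open Pool.Agent.H110R3.Mu Pool.Agent.H301X.FR

theorem deriv_smooth {n : ℕ} (γ : ℝ → EuclideanSpace ℝ (Fin n)) (hγ : ContDiff ℝ ∞ γ) (m : ℕ) :
    ContDiff ℝ ∞ (fun t => iteratedDeriv m γ t) := by
  rw [iteratedDeriv_eq_iterate]
  exact hγ.iterate_deriv m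

theorem gs_smooth {n : ℕ} (γ : ℝ → EuclideanSpace ℝ (Fin n)) (hγ : ContDiff ℝ ∞ γ)
    (hnd : IsNondegenerate γ) (m : ℕ) (hm : m < n) :
    ContDiff ℝ ∞ (fun t => gramSchmidt ℝ (fun k : Fin n => iteratedDeriv (k + 1) γ t) ⟨m, hm⟩) := by
  induction m using Nat.strong_induction_on with
  | _ m ih =>
    have e : (fun t => gramSchmidt ℝ (fun k : Fin n => iteratedDeriv (k + 1) γ t) ⟨m, hm⟩) =
        fun t => iteratedDeriv (m + 1) γ t - ∑ i ∈ Finset.Iio (⟨m, hm⟩ : Fin n),
          (⟪gramSchmidt ℝ (fun k : Fin n => iteratedDeriv (k + 1) γ t) i,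
            iteratedDeriv (m + 1) γ t⟫ /
            ‖gramSchmidt ℝ (fun k : Fin n => iteratedDeriv (k + 1) γ t) i‖ ^ 2) •
            gramSchmidt ℝ (fun k : Fin n => iteratedDeriv (k + 1) γ t) i := by
      funext t
      rw [gramSchmidt_def]
      congr 1
      refine Finset.sum_congr rfl fun i _ => ?_
      rw [Submodule.starProjection_singleton]
      rfl
    rw [e]
    refine (deriv_smooth γ hγ (m + 1)).sub ?_
    refine ContDiff.sum fun i hi => ?_
    have hi' : (i : ℕ) < m := by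
      have := Finset.mem_Iio.1 hi
      exact this
    have h1 : ContDiff ℝ ∞
        (fun t => gramSchmidt ℝ (fun k : Fin n => iteratedDeriv (k + 1) γ t) i) := ih i hi' i.2
    have hne : ∀ t, gramSchmidt ℝ (fun k : Fin n => iteratedDeriv (k + 1) γ t) i ≠ 0 :=
      fun t => gramSchmidt_ne_zero i (hnd t)
    refine ContDiff.smul (ContDiff.div (h1.inner ℝ (deriv_smooth γ hγ (m + 1)))
      (h1.norm_sq ℝ) fun t => ?_) h1
    exact pow_ne_zero _ (norm_ne_zero_iff.2 (hne t))

theorem taskSmooth : TaskSmooth := by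
  intro n γ hγ hnd k
  have h1 := gs_smooth γ hγ hnd k k.2
  have hne : ∀ t, gramSchmidt ℝ (fun k : Fin n => iteratedDeriv (k + 1) γ t) k ≠ 0 :=
    fun t => gramSchmidt_ne_zero k (hnd t)
  have e : (fun t => frenet γ t k) = fun t =>
      (‖gramSchmidt ℝ (fun k : Fin n => iteratedDeriv (k + 1) γ t) k‖)⁻¹ •
        gramSchmidt ℝ (fun k : Fin n => iteratedDeriv (k + 1) γ t) k := by
    funext t
    rfl
  rw [e]
  exact ContDiff.smul (ContDiff.inv (h1.norm ℝ hne) fun t => norm_ne_zero_iff.2 (hne t)) h1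

end Pool.Agent.H862R3.FRSmooth
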